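import Pool.Agent.Q122.Fact.Core

set_option autoImplicit false
set_option maxRecDepth 1000000

/-!
# Running the checks in the kernel
-/

namespace Q122.Fact

lemma chkV_0 : chkV 0 = true := by decide +kernel

lemma chkV_1 : chkV 1 = true := by decide +kernel

lemma chkV_2 : chkV 2 = true := by decide +kernel

lemma chkV_3 : chkV 3 = true := by decide +kernel

lemma chkV_4 : chkV 4 = true := by decide +kernel

lemma chkV_5 : chkV 5 = true := by decide +kernel

lemma chkV_6 : chkV 6 = true := by decide +kernel

lemma chkV_7 : chkV 7 = true := by decide +kernel

lemma chkV_8 : chkV 8 = true := by decide +kernel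

lemma chkV_9 : chkV 9 = true := by decide +kernel

lemma chkV_10 : chkV 10 = true := by decide +kernel

lemma chkV_all (k : ℕ) (hk : k < 11) : chkV k = true := by
  interval_cases k
  · exact chkV_0
  · exact chkV_1
  · exact chkV_2
  · exact chkV_3
  · exact chkV_4
  · exact chkV_5
  · exact chkV_6
  · exact chkV_7
  · exact chkV_8
  · exact chkV_9
  · exact chkV_10

lemma valid_all : (codes.all valid) = true := by decide +kernel

lemma sorted_all : (codes.zip codes.tail).all (fun p => Nat.ble (Nat.succ p.1) p.2) = true := by
  decide +kernel

end Q122.Fact
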