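import Pool.Agent.Q122.Fact.Codes

set_option autoImplicit false

/-!
# Checks on the list of matchings
-/

namespace Q122.Fact

/-! ### Functions suited to the kernel, and their meaning -/

/-- filter, with a continuation -/
def filterK (p : ℕ → Bool) (l : List ℕ) : (List ℕ → Bool) → List ℕ → Bool :=
  List.rec (motive := fun _ => (List ℕ → Bool) → List ℕ → Bool) (fun k acc => k acc)
    (fun c _ ih k acc => cond (p c) (ih k (c :: acc)) (ih k acc)) l

lemma filterK_spec (p : ℕ → Bool) (l : List ℕ) (k : List ℕ → Bool) :
    ∀ acc, filterK p l k acc = k ((l.filter p).reverse ++ acc) := by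
  induction l with
  | nil => intro acc; rfl
  | cons c l ih =>
    intro acc
    have h1 : filterK p (c :: l) k acc =
      cond (p c) (filterK p l k (c :: acc)) (filterK p l k acc) := rfl
    rw [h1]
    cases h : p c
    · rw [cond_false, ih, List.filter_cons_of_neg (by simp [h])]
    · rw [cond_true, ih, List.filter_cons_of_pos h]
      simp

/-- exactly `j` members of the list have the property -/
def cntIs (p : ℕ → Bool) (l : List ℕ) : ℕ → Bool :=
  List.rec (motive := fun _ => ℕ → Bool) (fun j => Nat.beq j 0)
    (fun c _ ih j => cond (p c) (Nat.rec (motive := fun _ => Bool) false (fun i _ => ih i) j) (ih j)) l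

lemma cntIs_spec (p : ℕ → Bool) (l : List ℕ) : ∀ j, cntIs p l j = true → l.countP p = j := by
  induction l with
  | nil =>
    intro j h
    have : j = 0 := Nat.eq_of_beq_eq_true h
    rw [this]
    rfl
  | cons c l ih =>
    intro j h
    have h1 : cond (p c) (Nat.rec (motive := fun _ => Bool) false (fun i _ => cntIs p l i) j)
      (cntIs p l j) = true := h
    cases hc : p c
    · rw [hc, cond_false] at h1
      rw [List.countP_cons_of_neg (by simp [hc])]
      exact ih j h1
    · rw [hc, cond_true] at h1
      rw [List.countP_cons_of_pos hc]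
      rcases j with _ | i
      · exact absurd h1 (by simp)
      · rw [ih i h1]

/-- all entries of the list, with the rest of the list -/
def tailsB (p : ℕ → ℕ → List (ℕ × ℕ) → Bool) (l : List (ℕ × ℕ)) : Bool :=
  List.rec (motive := fun _ => Bool) true (fun t l ih => cond (p t.1 t.2 l) ih false) l

lemma tailsB_spec {p : ℕ → ℕ → List (ℕ × ℕ) → Bool} {l : List (ℕ × ℕ)} (h : tailsB p l = true) :
    ∀ pre t suf, l = pre ++ t :: suf → p t.1 t.2 suf = true := by
  induction l with
  | nil => intro pre t suf h; simp at h
  | cons a l ih =>
    have h1 : cond (p a.1 a.2 l) (tailsB p l) false = true := h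
    cases ha : p a.1 a.2 l
    · rw [ha] at h1
      exact absurd h1 (by simp)
    · rw [ha, cond_true] at h1
      intro pre t suf hl
      rcases pre with _ | ⟨b, pre⟩
      · rw [List.nil_append, List.cons.injEq] at hl
        rw [← hl.1, ← hl.2]
        exact ha
      · rw [List.cons_append, List.cons.injEq] at hl
        exact ih h1 pre t suf hl.2

/-- The matching `c` contains the edge `e`. -/
def has (e : ℕ) (c : ℕ) : Bool := Nat.beq (Nat.land c e) e

/-- the check for a given first edge -/
def chkE (e x : ℕ) (l : List (ℕ × ℕ)) : Bool :=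
  filterK (has e) codes (fun L =>
    tailsB (fun e' x' l' => cond (Nat.beq (Nat.land x x') 0)
      (filterK (has e') L (fun L' =>
        tailsB (fun e'' x'' _ => cond (Nat.beq (Nat.land (Nat.lor x x') x'') 0)
          (cntIs (has e'') L' 6) true) l') []) true) l) []

/-- the check for the edges with a given smallest vertex -/
def chkV (k : ℕ) : Bool :=
  tailsB (fun e x l => cond (Nat.beq (Nat.land x (Nat.sub (Nat.pow 2 (Nat.succ k)) 1)) (Nat.pow 2 k))
    (chkE e x l) true) edges

lemma chkE_spec {e x : ℕ} {l : List (ℕ × ℕ)} (h : chkE e x l = true) {e' x' : ℕ}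
    {pre l' : List (ℕ × ℕ)} (hl : l = pre ++ (e', x') :: l') (hx : x &&& x' = 0)
    {e'' x'' : ℕ} {pre' l'' : List (ℕ × ℕ)} (hl' : l' = pre' ++ (e'', x'') :: l'')
    (hx' : (x ||| x') &&& x'' = 0) :
    (codes.filter fun c => has e c && (has e' c && has e'' c)).length = 6 := by
  unfold chkE at h
  rw [filterK_spec, List.append_nil] at h
  have h1 := tailsB_spec h pre (e', x') l' hl
  have h2 : Nat.beq (Nat.land x x') 0 = true := by
    have : Nat.land x x' = 0 := hx
    rw [this]
    rfl
  simp only [h2, cond_true] at h1
  rw [filterK_spec, List.append_nil] at h1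
  have h3 := tailsB_spec h1 pre' (e'', x'') l'' hl'
  have h4 : Nat.beq (Nat.land (Nat.lor x x') x'') 0 = true := by
    have : Nat.land (Nat.lor x x') x'' = 0 := hx'
    rw [this]
    rfl
  simp only [h4, cond_true] at h3
  have h5 := cntIs_spec _ _ _ h3
  rw [List.countP_reverse, List.filter_reverse, List.countP_reverse, List.countP_filter,
    List.countP_filter, List.countP_eq_length_filter] at h5
  rw [← h5]
  congr 1
  refine List.filter_congr fun c _ => ?_
  cases has e c <;> cases has e' c <;> cases has e'' c <;> rfl

/-! ### Number of set bits -/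

/-- number of set bits -/
def popc (n : ℕ) : ℕ := n.bitIndices.length

lemma popc_zero : popc 0 = 0 := by simp [popc]

lemma popc_bit_true (n : ℕ) : popc (Nat.bit true n) = popc n + 1 := by
  simp [popc]

lemma popc_bit_false (n : ℕ) : popc (Nat.bit false n) = popc n := by
  simp [popc]

lemma popc_clear (y : ℕ) : popc ((y + 1) &&& y) + 1 = popc (y + 1) := by
  induction y using Nat.strong_induction_on with
  | _ y ih =>
    rcases Nat.even_or_odd' y with ⟨n, h | h⟩
    · have h1 : y + 1 = Nat.bit true n := by rw [Nat.bit_true_apply, h]
      have h2 : y = Nat.bit false n := by rw [Nat.bit_false_apply, h]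
      have h3 : (y + 1) &&& y = Nat.bit false n := by
        rw [h1]
        conv_lhs => rw [h2]
        rw [Nat.land_bit, Nat.and_self, Bool.true_and]
      rw [h3, h1, popc_bit_false, popc_bit_true]
    · have h1 : y + 1 = Nat.bit false (n + 1) := by rw [Nat.bit_false_apply, h]; ring
      have h2 : y = Nat.bit true n := by rw [Nat.bit_true_apply, h]
      have h3 : (y + 1) &&& y = Nat.bit false ((n + 1) &&& n) := by
        rw [h1]
        conv_lhs => rw [h2]
        rw [Nat.land_bit, Bool.false_and]
      rw [h3, h1, popc_bit_false, popc_bit_false]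
      exact ih n (by omega)

/-- the number has exactly one set bit -/
def one (x : ℕ) : Bool :=
  Nat.rec (motive := fun _ => Bool) false (fun y _ => Nat.beq (Nat.land (Nat.succ y) y) 0) x

lemma one_spec {x : ℕ} (h : one x = true) : ∃! i, x.testBit i = true := by
  have h1 : popc x = 1 := by
    rcases x with _ | y
    · exact absurd h (by simp [one])
    · have h2 : Nat.beq (Nat.land (Nat.succ y) y) 0 = true := h
      have h3 : (y + 1) &&& y = 0 := Nat.eq_of_beq_eq_true h2
      rw [← popc_clear y, h3, popc_zero]
  unfold popc at h1
  rw [List.length_eq_one_iff] at h1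
  obtain ⟨i, hi⟩ := h1
  refine ⟨i, ?_, fun j hj => ?_⟩
  · have : i ∈ x.bitIndices := by rw [hi]; simp
    exact Nat.mem_bitIndices.1 this
  · have : j ∈ x.bitIndices := Nat.mem_bitIndices.2 hj
    rw [hi] at this
    simpa using this

/-- for every vertex the sum of the numbers of the edges containing it -/
def stars : List ℕ := [
  nat_lit 2047,
  nat_lit 2095105,
  nat_lit 1071646722,
  nat_lit 273806266372,
  nat_lit 34910572126216,
  nat_lit 2216892475392016,
  nat_lit 69841532663922720,
  nat_lit 1083187187261964352,
  nat_lit 8147154679671947392,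
  nat_lit 28976445910019211520,
  nat_lit 48729519783183647232,
  nat_lit 60565551418948191232]

/-- The code belongs to a perfect matching. -/
def valid (c : ℕ) : Bool :=
  cond (Nat.ble (Nat.succ c) (Nat.pow 2 66)) (stars.all fun s => one (Nat.land c s)) false

end Q122.Fact
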