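import Mathlib

set_option autoImplicit false

/-!
# `(n-3,1,1,1)`-factorisations of `K_{2n}`: definitions
-/

namespace Q122.Fact

/-- `m` is (the edge set of) a perfect matching of the complete graph on `Fin N`: its members are
`2`-sets and every vertex is in exactly one of them. -/
def IsPerfectMatching {N : ℕ} (m : Finset (Finset (Fin N))) : Prop :=
  (∀ e ∈ m, e.card = 2) ∧ ∀ x : Fin N, ∃! e, e ∈ m ∧ x ∈ e

/-- `D` is an `(n-3,1,1,1)`-factorisation of `K_{2n}` of index `c`: a non-empty set of perfect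
matchings such that `c > 0` and any three pairwise disjoint edges of `K_{2n}` are together contained
in exactly `c` members of `D`. -/
def IsFactorisation (n : ℕ) (D : Finset (Finset (Finset (Fin (2 * n))))) (c : ℕ) : Prop :=
  D.Nonempty ∧ (∀ m ∈ D, IsPerfectMatching m) ∧ 0 < c ∧
    ∀ e₁ e₂ e₃ : Finset (Fin (2 * n)), e₁.card = 2 → e₂.card = 2 → e₃.card = 2 →
      Disjoint e₁ e₂ → Disjoint e₁ e₃ → Disjoint e₂ e₃ →
      {m | m ∈ D ∧ e₁ ∈ m ∧ e₂ ∈ m ∧ e₃ ∈ m}.ncard = c

end Q122.Fact
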