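import Pool.Agent.Q122.Fact.Checks
import Pool.Agent.Q122.Fact.Defs

set_option autoImplicit false
set_option maxRecDepth 1000000

/-!
# The factorisation
-/

namespace Q122.Fact

open Finset

/-- the vertices of an edge -/
def verts (x : ℕ) : Finset (Fin 12) := univ.filter fun v => x.testBit v = true

lemma mem_verts (x : ℕ) (v : Fin 12) : v ∈ verts x ↔ x.testBit v = true := by
  unfold verts
  rw [mem_filter]
  simp

/-- the matching with a given code -/
def mt (c : ℕ) : Finset (Finset (Fin 12)) :=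
  ((edges.filter fun t => has t.1 c).map fun t => verts t.2).toFinset

lemma mem_mt {c : ℕ} {e : Finset (Fin 12)} :
    e ∈ mt c ↔ ∃ t ∈ edges, has t.1 c = true ∧ verts t.2 = e := by
  unfold mt
  rw [List.mem_toFinset, List.mem_map]
  constructor
  · rintro ⟨t, ht, h⟩
    rw [List.mem_filter] at ht
    exact ⟨t, ht.1, ht.2, h⟩
  · rintro ⟨t, h1, h2, h3⟩
    exact ⟨t, List.mem_filter.2 ⟨h1, h2⟩, h3⟩

lemma edges_fst : edges.map Prod.fst = (List.range 66).map fun i => 2 ^ i := by decide +kernel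

lemma edges_lt : ∀ t ∈ edges, t.2 < 2 ^ 12 := by decide +kernel

lemma edges_snd : (edges.map Prod.snd).Nodup := by decide +kernel

lemma edges_card : ∀ t ∈ edges, (verts t.2).card = 2 := by decide +kernel

lemma edges_ex : ∀ a b : Fin 12, a < b → ∃ t ∈ edges, t.2 = 2 ^ (a : ℕ) + 2 ^ (b : ℕ) := by
  decide +kernel

lemma verts_pair : ∀ a b : Fin 12, a < b → verts (2 ^ (a : ℕ) + 2 ^ (b : ℕ)) = {a, b} := by
  decide +kernel

lemma stars_spec : ∀ v : Fin 12, ∀ t ∈ edges,
    (Nat.land (stars.getD v 0) t.1 = t.1 ↔ t.2.testBit v = true) := by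
  decide +kernel

lemma edges_pow {t : ℕ × ℕ} (ht : t ∈ edges) : ∃ i < 66, t.1 = 2 ^ i := by
  have h : t.1 ∈ edges.map Prod.fst := List.mem_map_of_mem ht
  rw [edges_fst, List.mem_map] at h
  obtain ⟨i, hi, h⟩ := h
  exact ⟨i, List.mem_range.1 hi, h.symm⟩

lemma edges_of_lt {i : ℕ} (hi : i < 66) : ∃ t ∈ edges, t.1 = 2 ^ i := by
  have h : 2 ^ i ∈ edges.map Prod.fst := by
    rw [edges_fst, List.mem_map]
    exact ⟨i, List.mem_range.2 hi, rfl⟩
  rw [List.mem_map] at h
  exact h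

lemma edges_lt_pairwise : edges.Pairwise fun s t => s.1 < t.1 := by
  have h : (edges.map Prod.fst).Pairwise (· < ·) := by
    rw [edges_fst, List.pairwise_map]
    refine (List.pairwise_lt_range (n := 66)).imp fun h => ?_
    exact Nat.pow_lt_pow_right (by norm_num) h
  exact List.pairwise_map.1 h

lemma edges_inj {s t : ℕ × ℕ} (hs : s ∈ edges) (ht : t ∈ edges) (h : s.1 = t.1) : s = t := by
  by_contra hne
  have hp := edges_lt_pairwise
  rw [List.pairwise_iff_getElem] at hp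
  obtain ⟨i, hi, rfl⟩ := List.getElem_of_mem hs
  obtain ⟨j, hj, rfl⟩ := List.getElem_of_mem ht
  rcases lt_trichotomy i j with hij | hij | hij
  · have := hp i j hi hj hij
    omega
  · subst hij
    exact hne rfl
  · have := hp j i hj hi hij
    omega

lemma verts_inj {x y : ℕ} (hx : x < 2 ^ 12) (hy : y < 2 ^ 12) (h : verts x = verts y) : x = y := by
  refine Nat.eq_of_testBit_eq fun i => ?_
  by_cases hi : i < 12
  · have h1 := mem_verts x ⟨i, hi⟩
    have h2 := mem_verts y ⟨i, hi⟩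
    rw [h] at h1
    have h3 : (x.testBit i = true) ↔ (y.testBit i = true) := h1.symm.trans h2
    exact Bool.eq_iff_iff.2 h3
  · rw [Nat.testBit_lt_two_pow (lt_of_lt_of_le hx (Nat.pow_le_pow_right (by norm_num) (by omega))),
      Nat.testBit_lt_two_pow (lt_of_lt_of_le hy (Nat.pow_le_pow_right (by norm_num) (by omega)))]

lemma edges_verts_inj {s t : ℕ × ℕ} (hs : s ∈ edges) (ht : t ∈ edges)
    (h : verts s.2 = verts t.2) : s = t :=
  List.inj_on_of_nodup_map edges_snd hs ht (verts_inj (edges_lt s hs) (edges_lt t ht) h)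

lemma verts_mem_mt {t : ℕ × ℕ} (ht : t ∈ edges) (c : ℕ) :
    verts t.2 ∈ mt c ↔ has t.1 c = true := by
  rw [mem_mt]
  constructor
  · rintro ⟨s, hs, h1, h2⟩
    rwa [← edges_verts_inj hs ht h2]
  · intro h
    exact ⟨t, ht, h, rfl⟩

lemma has_pow (i c : ℕ) : has (2 ^ i) c = true ↔ c.testBit i = true := by
  unfold has
  have h1 : Nat.land c (2 ^ i) = c &&& 2 ^ i := rfl
  rw [h1, Nat.and_two_pow]
  have h2 : 2 ^ i ≠ 0 := by positivity
  cases c.testBit i
  · simpa using h2.symm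
  · simp

lemma mt_inj {c c' : ℕ} (hc : c < 2 ^ 66) (hc' : c' < 2 ^ 66) (h : mt c = mt c') : c = c' := by
  refine Nat.eq_of_testBit_eq fun i => ?_
  by_cases hi : i < 66
  · obtain ⟨t, ht, hti⟩ := edges_of_lt hi
    have h1 := verts_mem_mt ht c
    have h2 := verts_mem_mt ht c'
    rw [hti, has_pow] at h1 h2
    rw [h] at h1
    exact Bool.eq_iff_iff.2 (h1.symm.trans h2)
  · rw [Nat.testBit_lt_two_pow (lt_of_lt_of_le hc (Nat.pow_le_pow_right (by norm_num) (by omega))),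
      Nat.testBit_lt_two_pow (lt_of_lt_of_le hc' (Nat.pow_le_pow_right (by norm_num) (by omega)))]

lemma valid_lt {c : ℕ} (h : valid c = true) : c < 2 ^ 66 := by
  unfold valid at h
  cases h1 : Nat.ble (Nat.succ c) (Nat.pow 2 66)
  · rw [h1, cond_false] at h
    exact absurd h (by simp)
  · exact Nat.le_of_ble_eq_true h1

lemma valid_perfect {c : ℕ} (h : valid c = true) : IsPerfectMatching (mt c) := by
  have hlt := valid_lt h
  constructor
  · intro e he
    obtain ⟨t, ht, -, rfl⟩ := mem_mt.1 he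
    exact edges_card t ht
  · intro v
    have hone : one (Nat.land c (stars.getD v 0)) = true := by
      unfold valid at h
      cases h1 : Nat.ble (Nat.succ c) (Nat.pow 2 66)
      · rw [h1, cond_false] at h
        exact absurd h (by simp)
      · rw [h1, cond_true, List.all_eq_true] at h
        refine h _ ?_
        have hv : (v : ℕ) < stars.length := v.2
        rw [List.getD_eq_getElem _ _ hv]
        exact List.getElem_mem hv
    obtain ⟨i, hi, huni⟩ := one_spec hone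
    have hland : ∀ j, (Nat.land c (stars.getD v 0)).testBit j = true ↔
        c.testBit j = true ∧ (stars.getD v 0).testBit j = true := by
      intro j
      have : Nat.land c (stars.getD v 0) = c &&& stars.getD v 0 := rfl
      rw [this, Nat.testBit_land, Bool.and_eq_true]
    have hi' := (hland i).1 hi
    have hi66 : i < 66 := by
      by_contra hcon
      rw [Nat.testBit_lt_two_pow (lt_of_lt_of_le hlt
        (Nat.pow_le_pow_right (by norm_num) (by omega)))] at hi'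
      exact absurd hi'.1 (by simp)
    have hst : ∀ (j : ℕ) (t : ℕ × ℕ), t ∈ edges → t.1 = 2 ^ j →
        ((stars.getD v 0).testBit j = true ↔ t.2.testBit v = true) := by
      intro j t ht htj
      rw [← stars_spec v t ht, htj, ← has_pow]
      unfold has
      constructor
      · intro h; exact Nat.eq_of_beq_eq_true h
      · intro h
        rw [h]
        exact Nat.beq_refl _
    obtain ⟨t, ht, hti⟩ := edges_of_lt hi66
    refine ⟨verts t.2, ⟨(verts_mem_mt ht c).2 ?_, ?_⟩, ?_⟩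
    · rw [hti, has_pow]
      exact hi'.1
    · rw [mem_verts, ← hst i t ht hti]
      exact hi'.2
    · rintro e ⟨he, hv⟩
      obtain ⟨s, hs, hsc, rfl⟩ := mem_mt.1 he
      obtain ⟨j, -, hj⟩ := edges_pow hs
      rw [hj, has_pow] at hsc
      rw [mem_verts, ← hst j s hs hj] at hv
      have hji : j = i := huni j ((hland j).2 ⟨hsc, hv⟩)
      rw [hji, ← hti] at hj
      rw [edges_inj hs ht hj]

lemma codes_valid {c : ℕ} (h : c ∈ codes) : valid c = true :=
  List.all_eq_true.1 valid_all c h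

lemma codes_nodup : codes.Nodup := by
  have h := sorted_all
  have h2 : codes.IsChain (· < ·) := by
    rw [List.isChain_iff_getElem]
    intro i hi
    rw [List.all_eq_true] at h
    have h3 : (codes[i], codes[i + 1]) ∈ codes.zip codes.tail := by
      rw [List.mem_iff_getElem]
      refine ⟨i, ?_, ?_⟩
      · rw [List.length_zip, List.length_tail]
        omega
      · rw [List.getElem_zip, List.getElem_tail]
    have h4 := h _ h3
    exact Nat.le_of_ble_eq_true h4
  exact (List.isChain_iff_pairwise.1 h2).imp fun h => ne_of_lt h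

/-- the set of matchings -/
def D : Finset (Finset (Finset (Fin 12))) := codes.toFinset.image mt

lemma count_sorted {t₁ t₂ t₃ : ℕ × ℕ} (h₁ : t₁ ∈ edges) (h₂ : t₂ ∈ edges) (h₃ : t₃ ∈ edges)
    (h12 : t₁.1 < t₂.1) (h23 : t₂.1 < t₃.1) (d12 : t₁.2 &&& t₂.2 = 0)
    (d3 : (t₁.2 ||| t₂.2) &&& t₃.2 = 0) :
    (codes.filter fun c => has t₁.1 c && (has t₂.1 c && has t₃.1 c)).length = 6 := by
  obtain ⟨pre, l, hl⟩ := List.append_of_mem h₁
  have hp := edges_lt_pairwise
  rw [hl, List.pairwise_append] at hp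
  obtain ⟨-, hp1, hp2⟩ := hp
  have hmem : ∀ t ∈ edges, t₁.1 < t.1 → t ∈ l := by
    intro t ht htlt
    rw [hl, List.mem_append, List.mem_cons] at ht
    rcases ht with ht | ht | ht
    · have := hp2 t ht t₁ (by simp)
      omega
    · rw [ht] at htlt
      omega
    · exact ht
  obtain ⟨pre', l', hl'⟩ := List.append_of_mem (hmem t₂ h₂ h12)
  have hp3 := (List.pairwise_cons.1 hp1).2
  rw [hl', List.pairwise_append] at hp3
  obtain ⟨-, hp4, hp5⟩ := hp3
  have ht3 : t₃ ∈ l' := by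
    have ht := hmem t₃ h₃ (h12.trans h23)
    rw [hl', List.mem_append, List.mem_cons] at ht
    rcases ht with ht | ht | ht
    · have := hp5 t₃ ht t₂ (by simp)
      omega
    · rw [ht] at h23
      omega
    · exact ht
  obtain ⟨pre'', l'', hl''⟩ := List.append_of_mem ht3
  -- the smallest vertex
  have hk : ∃ k < 11, t₁.2 &&& (2 ^ (k + 1) - 1) = 2 ^ k := by
    have : ∀ t ∈ edges, ∃ k < 11, t.2 &&& (2 ^ (k + 1) - 1) = 2 ^ k := by decide +kernel
    exact this t₁ h₁
  obtain ⟨k, hk11, hk⟩ := hk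
  have h4 := tailsB_spec (chkV_all k hk11) pre t₁ l hl
  have h5 : Nat.beq (Nat.land t₁.2 (Nat.sub (Nat.pow 2 (Nat.succ k)) 1)) (Nat.pow 2 k) = true := by
    have : Nat.land t₁.2 (Nat.sub (Nat.pow 2 (Nat.succ k)) 1) = Nat.pow 2 k := hk
    rw [this]
    exact Nat.beq_refl _
  simp only [h5, cond_true] at h4
  exact chkE_spec h4 (e' := t₂.1) (x' := t₂.2) (pre := pre') (l' := l') hl' d12
    (e'' := t₃.1) (x'' := t₃.2) (pre' := pre'') (l'' := l'') hl'' d3

lemma land_zero {t s : ℕ × ℕ} (ht : t ∈ edges) (h : Disjoint (verts t.2) (verts s.2)) :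
    t.2 &&& s.2 = 0 := by
  refine Nat.eq_of_testBit_eq fun i => ?_
  rw [Nat.testBit_land, Nat.zero_testBit]
  by_cases hi : i < 12
  · rw [Finset.disjoint_left] at h
    have := h (a := ⟨i, hi⟩)
    rw [mem_verts, mem_verts] at this
    simp only at this
    cases h1 : t.2.testBit i
    · rfl
    · rw [h1] at this
      have h2 := this rfl
      simpa using h2
  · rw [Nat.testBit_lt_two_pow (lt_of_lt_of_le (edges_lt t ht)
      (Nat.pow_le_pow_right (by norm_num) (by omega)))]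
    rfl

lemma count_sorted' {t₁ t₂ t₃ : ℕ × ℕ} (h₁ : t₁ ∈ edges) (h₂ : t₂ ∈ edges) (h₃ : t₃ ∈ edges)
    (h12 : t₁.1 < t₂.1) (h23 : t₂.1 < t₃.1) (d12 : Disjoint (verts t₁.2) (verts t₂.2))
    (d13 : Disjoint (verts t₁.2) (verts t₃.2)) (d23 : Disjoint (verts t₂.2) (verts t₃.2)) :
    {m | m ∈ D ∧ verts t₁.2 ∈ m ∧ verts t₂.2 ∈ m ∧ verts t₃.2 ∈ m}.ncard = 6 := by
  classical
  have d3 : (t₁.2 ||| t₂.2) &&& t₃.2 = 0 := by
    rw [Nat.and_or_distrib_right, land_zero h₁ d13, land_zero h₂ d23]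
    rfl
  have hc := count_sorted h₁ h₂ h₃ h12 h23 (land_zero h₁ d12) d3
  have h1 : {m | m ∈ D ∧ verts t₁.2 ∈ m ∧ verts t₂.2 ∈ m ∧ verts t₃.2 ∈ m} =
      (((codes.filter fun c => has t₁.1 c && (has t₂.1 c && has t₃.1 c)).toFinset.image mt :
        Finset _) : Set _) := by
    ext m
    simp only [D, Finset.mem_image, Set.mem_ofPred_eq, Finset.coe_image, Set.mem_image,
      Finset.mem_coe, List.mem_toFinset, List.mem_filter, Bool.and_eq_true]
    constructor
    · rintro ⟨⟨c, hc, rfl⟩, a1, a2, a3⟩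
      exact ⟨c, ⟨hc, (verts_mem_mt h₁ c).1 a1, (verts_mem_mt h₂ c).1 a2,
        (verts_mem_mt h₃ c).1 a3⟩, rfl⟩
    · rintro ⟨c, ⟨hc, a1, a2, a3⟩, rfl⟩
      exact ⟨⟨c, hc, rfl⟩, (verts_mem_mt h₁ c).2 a1, (verts_mem_mt h₂ c).2 a2,
        (verts_mem_mt h₃ c).2 a3⟩
  rw [h1, Set.ncard_coe_finset, Finset.card_image_of_injOn,
    List.toFinset_card_of_nodup (codes_nodup.filter _), hc]
  intro c hc c' hc' h
  simp only [Finset.mem_coe, List.mem_toFinset, List.mem_filter] at hc hc'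
  exact mt_inj (valid_lt (codes_valid hc.1)) (valid_lt (codes_valid hc'.1)) h

lemma exists_edge {e : Finset (Fin 12)} (he : e.card = 2) : ∃ t ∈ edges, verts t.2 = e := by
  obtain ⟨a, b, hab, rfl⟩ := Finset.card_eq_two.1 he
  rcases lt_or_gt_of_ne hab with h | h
  · obtain ⟨t, ht, h1⟩ := edges_ex a b h
    exact ⟨t, ht, by rw [h1, verts_pair a b h]⟩
  · obtain ⟨t, ht, h1⟩ := edges_ex b a h
    exact ⟨t, ht, by rw [h1, verts_pair b a h, Finset.pair_comm]⟩

lemma ne_of_disj {s t : ℕ × ℕ} (hs : s ∈ edges) (h : Disjoint (verts s.2) (verts t.2)) :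
    s.1 ≠ t.1 ∨ t ∉ edges := by
  by_contra hcon
  push Not at hcon
  have hst := edges_inj hs hcon.2 hcon.1
  rw [← hst, Finset.disjoint_self_iff_empty] at h
  have := edges_card s hs
  rw [h] at this
  exact absurd this (by simp)

theorem count_all (e₁ e₂ e₃ : Finset (Fin 12)) (h₁ : e₁.card = 2) (h₂ : e₂.card = 2)
    (h₃ : e₃.card = 2) (d12 : Disjoint e₁ e₂) (d13 : Disjoint e₁ e₃) (d23 : Disjoint e₂ e₃) :
    {m | m ∈ D ∧ e₁ ∈ m ∧ e₂ ∈ m ∧ e₃ ∈ m}.ncard = 6 := by
  obtain ⟨t₁, ht₁, rfl⟩ := exists_edge h₁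
  obtain ⟨t₂, ht₂, rfl⟩ := exists_edge h₂
  obtain ⟨t₃, ht₃, rfl⟩ := exists_edge h₃
  have n12 : t₁.1 ≠ t₂.1 := (ne_of_disj ht₁ d12).resolve_right (by simpa using ht₂)
  have n13 : t₁.1 ≠ t₃.1 := (ne_of_disj ht₁ d13).resolve_right (by simpa using ht₃)
  have n23 : t₂.1 ≠ t₃.1 := (ne_of_disj ht₂ d23).resolve_right (by simpa using ht₃)
  rcases lt_or_gt_of_ne n12 with a | a <;> rcases lt_or_gt_of_ne n13 with b | b <;>
    rcases lt_or_gt_of_ne n23 with c | c
  · exact count_sorted' ht₁ ht₂ ht₃ a c d12 d13 d23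
  · rw [← count_sorted' ht₁ ht₃ ht₂ b c d13 d12 d23.symm]
    congr 1
    ext m
    exact ⟨fun ⟨x, y, z, w⟩ => ⟨x, y, w, z⟩, fun ⟨x, y, z, w⟩ => ⟨x, y, w, z⟩⟩
  · exact absurd (a.trans c) (lt_asymm b)
  · rw [← count_sorted' ht₃ ht₁ ht₂ b a d13.symm d23.symm d12]
    congr 1
    ext m
    exact ⟨fun ⟨x, y, z, w⟩ => ⟨x, w, y, z⟩, fun ⟨x, w, y, z⟩ => ⟨x, y, z, w⟩⟩
  · rw [← count_sorted' ht₂ ht₁ ht₃ a b d12.symm d23 d13]
    congr 1
    ext m
    exact ⟨fun ⟨x, y, z, w⟩ => ⟨x, z, y, w⟩, fun ⟨x, z, y, w⟩ => ⟨x, y, z, w⟩⟩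
  · exact absurd (c.trans a) (lt_asymm b)
  · rw [← count_sorted' ht₂ ht₃ ht₁ c b d23 d12.symm d13.symm]
    congr 1
    ext m
    exact ⟨fun ⟨x, y, z, w⟩ => ⟨x, z, w, y⟩, fun ⟨x, z, w, y⟩ => ⟨x, y, z, w⟩⟩
  · rw [← count_sorted' ht₃ ht₂ ht₁ c a d23.symm d13.symm d12.symm]
    congr 1
    ext m
    exact ⟨fun ⟨x, y, z, w⟩ => ⟨x, w, z, y⟩, fun ⟨x, w, z, y⟩ => ⟨x, y, z, w⟩⟩

end Q122.Fact
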